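import Mathlib
import Pool.Agent.H563R3.EAFinal

set_option autoImplicit false
open MeasureTheory ProbabilityTheory Filter Topology
open Pool.Agent.H563R3.EA

namespace Pool.Agent.Results.MP_e8a7ad_pr.Converges

/-- Question 1 has a positive answer: for every `d ≥ 1` the edge averaging process on `ℤ^d` started
from a bounded stationary profile converges almost surely at every vertex. Ergodicity of the
initial profile is not needed. -/
theorem result (d : ℕ) (hd : 1 ≤ d) (Ω : Type) (mΩ : MeasurableSpace Ω) (P : Measure Ω)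
    [IsProbabilityMeasure P] (F : Filtration ℝ mΩ) (N : Edge d → ℝ → Ω → ℕ)
    (f : ℝ → Ω → Site d → ℝ) (hN : PoissonClocks P F N) (hf : EdgeAveraging P F N f)
    (hs : Stationary P (f 0)) :
    ∀ᵐ ω ∂P, ∀ v : Site d, ∃ L : ℝ, Tendsto (fun t : ℝ => f t ω v) atTop (𝓝 L) := by
  haveI : NeZero d := ⟨by omega⟩
  exact main_theorem hN hf hs

end Pool.Agent.Results.MP_e8a7ad_pr.Converges
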